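import Pool.Agent.TFJ.Stmts

set_option autoImplicit false

namespace Pool.Agent.TFJ.H59

open Pool.Agent.TFJ

theorem stb : StbStmt := by
  refine ⟨?_, ?_⟩
  · intro E _ f g a hf hg hfg x
    have key : ∀ (f g : E → ℝ), Adm f → Adm g → (∀ x, |f x - g x| ≤ a) →
        st f x ≤ st g x + a := by
      intro f g hf hg hfg
      haveI : Nonempty E := ⟨x⟩
      refine ciSup_le ?_
      intro z
      have h1 : dist x z - g z ≤ st g x := by
        refine le_ciSup (f := fun z => dist x z - g z) ?_ z
        refine ⟨g x, ?_⟩
        rintro _ ⟨w, rfl⟩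
        have := hg x w
        simp only
        linarith
      have h2 := abs_le.mp (hfg z)
      linarith [h2.1, h2.2]
    have h1 := key f g hf hg hfg
    have h2 := key g f hg hf (fun x => by rw [abs_sub_comm]; exact hfg x)
    have h3 := abs_le.mp (hfg x)
    unfold qq
    rw [abs_le]
    constructor <;> linarith [h3.1, h3.2]
  · intro E _ f φ hφ
    funext x
    have : st (fun x => f (φ x)) x = st f (φ x) := by
      unfold st
      refine Function.Surjective.iSup_congr φ φ.surjective ?_
      intro z
      rw [hφ]
    unfold qq
    rw [this]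

end Pool.Agent.TFJ.H59
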